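import Pool.Agent.H18.HX.Targets

/-!
# Dense orbits on arbitrary varieties, row ALX: the coordinates are algebraically independent on the
hypersurface, all other functions are algebraic over them
-/

set_option autoImplicit false

open MvPolynomial
open Pool.Agent.H12.ZD (pmap v O Res DenseOrbit NoInv)
open Pool.Agent.H18.HIT Pool.Agent.H18.HX

namespace Pool.Agent.H37.HX

section

variable {N : ℕ} {k : Type} [Field k] {P : Po (N + 1) k}

theorem natDegree_pos (hirr : Irreducible P) (hm : Mny P) :
    0 < (finSuccEquiv k N P).natDegree := by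
  by_contra h
  have h1 : finSuccEquiv k N P = 1 :=
    Polynomial.eq_one_of_monic_natDegree_zero hm (by omega)
  have h2 : P = 1 := by
    apply (finSuccEquiv k N).injective
    rw [h1, map_one]
  exact hirr.not_isUnit (by rw [h2]; exact isUnit_one)

theorem up_eq_zero (hirr : Irreducible P) (hm : Mny P) (q : Po N k)
    (h : P ∣ rename Fin.succ q) : q = 0 := by
  have h1 : finSuccEquiv k N P ∣ Polynomial.C q := by
    rw [← Pool.Agent.H12.ZD.finSuccEquiv_rename_succ]
    exact map_dvd _ h
  by_contra hq
  have h2 := Polynomial.natDegree_le_of_dvd h1 (Polynomial.C_ne_zero.2 hq)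
  rw [Polynomial.natDegree_C] at h2
  have := natDegree_pos hirr hm
  omega

theorem isPrime_span (hirr : Irreducible P) : (Ideal.span {P}).IsPrime :=
  (Ideal.span_singleton_prime hirr.ne_zero).2 hirr.prime

/-- the classes of the variables `X i.succ` -/
theorem basis_x (hirr : Irreducible P) (hm : Mny P) :
    haveI := isPrime_span hirr
    IsTranscendenceBasis k
      (fun j : Fin N => (Ideal.Quotient.mk (Ideal.span {P}) (X j.succ))) := by
  have := isPrime_span hirr
  obtain ⟨x, hx⟩ : ∃ x : Fin N → Po (N + 1) k ⧸ Ideal.span {P},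
    x = fun j : Fin N => (Ideal.Quotient.mk (Ideal.span {P}) (X j.succ)) := ⟨_, rfl⟩
  rw [← hx]
  have hmk : ∀ q : Po N k, aeval x q = Ideal.Quotient.mk (Ideal.span {P}) (rename Fin.succ q) := by
    intro q
    have h1 : (aeval x : Po N k →ₐ[k] _) =
        (Ideal.Quotient.mkₐ k (Ideal.span {P})).comp (rename Fin.succ) := by
      apply MvPolynomial.algHom_ext
      intro i
      rw [AlgHom.comp_apply, rename_X, aeval_X, hx]
      rfl
    rw [h1]
    rfl
  have hind : AlgebraicIndependent k x := by
    rw [algebraicIndependent_iff]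
    intro p hp
    rw [hmk, Ideal.Quotient.eq_zero_iff_mem, Ideal.mem_span_singleton] at hp
    exact up_eq_zero hirr hm p hp
  rw [hind.isTranscendenceBasis_iff_isAlgebraic]
  obtain ⟨y, hy⟩ : ∃ y : Fin N → Algebra.adjoin k (Set.range x), ∀ j, (y j : _) = x j :=
    ⟨fun j => ⟨x j, Algebra.subset_adjoin ⟨j, rfl⟩⟩, fun j => rfl⟩
  have hX0 : IsIntegral (Algebra.adjoin k (Set.range x))
      (Ideal.Quotient.mk (Ideal.span {P}) (X 0)) := by
    refine ⟨(finSuccEquiv k N P).map (aeval y : Po N k →ₐ[k] _).toRingHom, hm.map _, ?_⟩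
    rw [Polynomial.eval₂_map]
    have h1 : ((Polynomial.eval₂RingHom ((algebraMap (Algebra.adjoin k (Set.range x))
        (Po (N + 1) k ⧸ Ideal.span {P})).comp (aeval y : Po N k →ₐ[k] _).toRingHom)
        (Ideal.Quotient.mk (Ideal.span {P}) (X 0))).comp
        ((finSuccEquiv k N : Po (N + 1) k →ₐ[k] Polynomial (Po N k)) :
          Po (N + 1) k →+* Polynomial (Po N k))) = Ideal.Quotient.mk (Ideal.span {P}) := by
      apply MvPolynomial.ringHom_ext
      · intro c
        have h2 : (finSuccEquiv k N) (C c) = Polynomial.C (C c) := by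
          rw [finSuccEquiv_apply]
          simp
        rw [RingHom.comp_apply]
        have h3 : ((finSuccEquiv k N : Po (N + 1) k →ₐ[k] Polynomial (Po N k)) :
          Po (N + 1) k →+* Polynomial (Po N k)) (C c) = Polynomial.C (C c) := h2
        rw [h3, Polynomial.coe_eval₂RingHom, Polynomial.eval₂_C, RingHom.comp_apply]
        have h4 : (aeval y : Po N k →ₐ[k] _).toRingHom (C c) =
            algebraMap k (Algebra.adjoin k (Set.range x)) c := (aeval y).commutes c
        rw [h4]
        rfl
      · intro i
        rw [RingHom.comp_apply]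
        refine Fin.cases ?_ (fun j => ?_) i
        · have h3 : ((finSuccEquiv k N : Po (N + 1) k →ₐ[k] Polynomial (Po N k)) :
            Po (N + 1) k →+* Polynomial (Po N k)) (X 0) = Polynomial.X := finSuccEquiv_X_zero
          rw [h3, Polynomial.coe_eval₂RingHom, Polynomial.eval₂_X]
        · have h3 : ((finSuccEquiv k N : Po (N + 1) k →ₐ[k] Polynomial (Po N k)) :
            Po (N + 1) k →+* Polynomial (Po N k)) (X j.succ) = Polynomial.C (X j) :=
            finSuccEquiv_X_succ
          rw [h3, Polynomial.coe_eval₂RingHom, Polynomial.eval₂_C, RingHom.comp_apply]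
          have h4 : (aeval y : Po N k →ₐ[k] _).toRingHom (X j) = y j := aeval_X y j
          rw [h4]
          have h5 : algebraMap (Algebra.adjoin k (Set.range x))
              (Po (N + 1) k ⧸ Ideal.span {P}) (y j) = x j := hy j
          rw [h5, hx]
    have h2 := RingHom.congr_fun h1 P
    rw [RingHom.comp_apply, Polynomial.coe_eval₂RingHom] at h2
    have h3 : Ideal.Quotient.mk (Ideal.span {P}) P = 0 := by
      rw [Ideal.Quotient.eq_zero_iff_mem]
      exact Ideal.mem_span_singleton_self P
    rw [h3] at h2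
    exact h2
  have hint : ∀ q : Po (N + 1) k, IsIntegral (Algebra.adjoin k (Set.range x))
      (Ideal.Quotient.mk (Ideal.span {P}) q) := by
    intro q
    induction q using MvPolynomial.induction_on with
    | C c =>
      have h1 : Ideal.Quotient.mk (Ideal.span {P}) (C c : Po (N + 1) k) =
          algebraMap (Algebra.adjoin k (Set.range x)) _ (algebraMap k _ c) := rfl
      rw [h1]
      exact isIntegral_algebraMap
    | add p q hp hq =>
      rw [map_add]
      exact hp.add hq
    | mul_X q i hq =>
      rw [map_mul]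
      refine hq.mul ?_
      refine Fin.cases hX0 (fun j => ?_) i
      have h1 : Ideal.Quotient.mk (Ideal.span {P}) (X j.succ : Po (N + 1) k) =
          algebraMap (Algebra.adjoin k (Set.range x)) _ (y j) := by
        have h5 : algebraMap (Algebra.adjoin k (Set.range x))
            (Po (N + 1) k ⧸ Ideal.span {P}) (y j) = x j := hy j
        rw [h5, hx]
      rw [h1]
      exact isIntegral_algebraMap
  refine ⟨fun b => ?_⟩
  obtain ⟨q, rfl⟩ := Ideal.Quotient.mk_surjective b
  exact (hint q).isAlgebraic

theorem dvd_aeval_succ (hirr : Irreducible P) (hm : Mny P) {G : Tup (N + 1) k}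
    (hG : Slf (Ideal.span {P}) G) (q : Po N k)
    (hq : P ∣ aeval (fun j : Fin N => G j.succ) q) : q = 0 := by
  apply up_eq_zero hirr hm
  rw [← Ideal.mem_span_singleton]
  apply hG.inj
  rw [Ideal.mem_span_singleton, aeval_rename]
  exact hq

theorem aeval_mk (G : Tup (N + 1) k) (q : Po N k) :
    aeval (fun j : Fin N => (Ideal.Quotient.mk (Ideal.span {P}) (G j.succ))) q =
      Ideal.Quotient.mk (Ideal.span {P}) (aeval (fun j : Fin N => G j.succ) q) := by
  have h1 : (aeval (fun j : Fin N => (Ideal.Quotient.mk (Ideal.span {P}) (G j.succ))) :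
      Po N k →ₐ[k] _) =
      (Ideal.Quotient.mkₐ k (Ideal.span {P})).comp (aeval fun j : Fin N => G j.succ) := by
    apply MvPolynomial.algHom_ext
    intro i
    rw [AlgHom.comp_apply, aeval_X, aeval_X]
    rfl
  rw [h1]
  rfl

/-- the classes of the `G i.succ` -/
theorem basis_G (hirr : Irreducible P) (hm : Mny P) {G : Tup (N + 1) k}
    (hG : Slf (Ideal.span {P}) G) :
    IsTranscendenceBasis k
      (fun j : Fin N => (Ideal.Quotient.mk (Ideal.span {P}) (G j.succ))) := by
  have := isPrime_span hirr
  have hind : AlgebraicIndependent k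
      (fun j : Fin N => (Ideal.Quotient.mk (Ideal.span {P}) (G j.succ))) := by
    rw [algebraicIndependent_iff]
    intro p hp
    rw [aeval_mk, Ideal.Quotient.eq_zero_iff_mem, Ideal.mem_span_singleton] at hp
    exact dvd_aeval_succ hirr hm hG p hp
  have htr := (basis_x hirr hm).lift_cardinalMk_eq_trdeg
  apply hind.isTranscendenceBasis_of_lift_trdeg_le_of_finite
  exact htr.ge

end

theorem pf_ALX : T_ALX := by
  intro N k _ P G hirr hm hG
  have := isPrime_span hirr
  refine ⟨dvd_aeval_succ hirr hm hG, fun i => ?_⟩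
  obtain ⟨g, hg⟩ : ∃ g : Fin N → Po (N + 1) k ⧸ Ideal.span {P},
    g = fun j : Fin N => (Ideal.Quotient.mk (Ideal.span {P}) (G j.succ)) := ⟨_, rfl⟩
  have hbas : IsTranscendenceBasis k g := by
    rw [hg]
    exact basis_G hirr hm hG
  have hmk : ∀ q : Po N k, aeval g q =
      Ideal.Quotient.mk (Ideal.span {P}) (aeval (fun j : Fin N => G j.succ) q) := by
    intro q
    rw [hg]
    exact aeval_mk G q
  have hind : AlgebraicIndependent k g := hbas.1
  have halg := hbas.isAlgebraic
  obtain ⟨p, hp0, hp⟩ := halg.isAlgebraic (Ideal.Quotient.mk (Ideal.span {P}) (X i))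
  obtain ⟨e, he⟩ : ∃ e : Po N k ≃ₐ[k] Algebra.adjoin k (Set.range g), e = hind.aevalEquiv :=
    ⟨_, rfl⟩
  refine ⟨p.map (e.symm : Algebra.adjoin k (Set.range g) →ₐ[k] Po N k).toRingHom, ?_, ?_⟩
  · intro h
    apply hp0
    rw [Polynomial.map_eq_zero_iff] at h
    · exact h
    · exact e.symm.injective
  · rw [← Ideal.mem_span_singleton, ← Ideal.Quotient.eq_zero_iff_mem]
    unfold evg
    rw [Polynomial.eval₂_map, Polynomial.hom_eval₂, ← hp, Polynomial.aeval_def]
    congr 1
    apply RingHom.ext
    intro z
    obtain ⟨q, rfl⟩ := e.surjective z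
    rw [RingHom.comp_apply, RingHom.comp_apply]
    have h3 : (e.symm : Algebra.adjoin k (Set.range g) →ₐ[k] Po N k).toRingHom (e q) = q :=
      e.symm_apply_apply q
    rw [h3]
    have h4 : algebraMap (Algebra.adjoin k (Set.range g)) (Po (N + 1) k ⧸ Ideal.span {P}) (e q) =
        aeval g q := by
      rw [he]
      exact hind.algebraMap_aevalEquiv q
    rw [h4, hmk]
    rfl

end Pool.Agent.H37.HX
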