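import Pool.Agent.H37.HX.ALX
import Pool.Agent.H8.HZ.CNT
import Pool.Agent.H8.HZ.INJ

/-!
# Dense orbits on arbitrary varieties, row JCX: the jacobian does not vanish on the hypersurface
-/

set_option autoImplicit false

open MvPolynomial
open Pool.Agent.H12.ZD (pmap v O Res DenseOrbit NoInv)
open Pool.Agent.H18.HIT Pool.Agent.H18.HX

namespace Pool.Agent.H37.HX

theorem pf_JCX : T_JCX := by
  classical
  intro N k _ _ P W F hirr hm hF hW hPW hjac
  have := isPrime_span hirr
  obtain ⟨mk, hmk⟩ : ∃ mk : Po (N + 1) k →ₐ[k] Po (N + 1) k ⧸ Ideal.span {P},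
    mk = Ideal.Quotient.mkₐ k (Ideal.span {P}) := ⟨_, rfl⟩
  have hmk0 : ∀ x : Po (N + 1) k, mk x = 0 ↔ P ∣ x := by
    intro x
    rw [hmk, Ideal.Quotient.mkₐ_eq_mk, Ideal.Quotient.eq_zero_iff_mem, Ideal.mem_span_singleton]
  have hsurj : Function.Surjective mk := by
    rw [hmk]
    exact Ideal.Quotient.mkₐ_surjective k _
  have hdet : (Matrix.of fun i j => mk (pderiv j (F i))).det = 0 := by
    have h1 : (Matrix.of fun i j => mk (pderiv j (F i))) =
        mk.mapMatrix (Matrix.of fun i j => pderiv j (F i)) := by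
      ext i j
      rfl
    rw [h1, ← AlgHom.map_det]
    exact (hmk0 _).2 hjac
  obtain ⟨w, hw, hMw⟩ := Matrix.exists_mulVec_eq_zero_iff.mpr hdet
  choose w' hw' using fun j => hsurj (w j)
  obtain ⟨d, hd⟩ : ∃ d : Derivation k (Po (N + 1) k) (Po (N + 1) k), d = mkDerivation k w' :=
    ⟨_, rfl⟩
  have hdF : ∀ i, mk (d (F i)) = 0 := by
    intro i
    have h1 := congrFun hMw i
    rw [hd, Pool.Agent.H8.HZ.mkDerivation_eq_sum, map_sum]
    simp only [map_mul, hw']
    exact h1
  have hdq : ∀ q : Po (N + 1) k, mk (d (aeval F q)) = 0 := by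
    intro q
    induction q using MvPolynomial.induction_on with
    | C a =>
      have h1 : (aeval F (C a) : Po (N + 1) k) = algebraMap k _ a := (aeval F).commutes a
      rw [h1, d.map_algebraMap, map_zero]
    | add p q hp hq => rw [map_add, map_add, map_add, hp, hq, add_zero]
    | mul_X q i hq =>
      rw [map_mul, aeval_X, d.leibniz, smul_eq_mul, smul_eq_mul, map_add, map_mul, map_mul, hq,
        hdF i, mul_zero, mul_zero, add_zero]
  have hdP : mk (d P) = 0 := by
    have h1 := hdq P
    rw [hW, d.leibniz, smul_eq_mul, smul_eq_mul, map_add, map_mul, map_mul,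
      (hmk0 P).2 dvd_rfl, zero_mul, zero_add] at h1
    rcases mul_eq_zero.1 h1 with h2 | h2
    · exact absurd ((hmk0 W).1 h2) hPW
    · exact h2
  have hker : ∀ x : Po (N + 1) k, mk x = 0 → mk (d x) = 0 := by
    intro x hx
    obtain ⟨a, rfl⟩ := (hmk0 x).1 hx
    rw [d.leibniz, smul_eq_mul, smul_eq_mul, map_add, map_mul, map_mul, hdP,
      (hmk0 P).2 dvd_rfl, zero_mul, mul_zero, add_zero]
  obtain ⟨D, hD⟩ : ∃ D : Derivation k (Po (N + 1) k ⧸ Ideal.span {P})
      (Po (N + 1) k ⧸ Ideal.span {P}), ∀ x, D (mk x) = mk (d x) :=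
    ⟨Derivation.liftOfSurjective hsurj hker, fun x =>
      Derivation.liftOfSurjective_apply hsurj hker x⟩
  have hbas := basis_G hirr hm hF
  have halg := hbas.isAlgebraic
  have hDA : ∀ a ∈ Algebra.adjoin k (Set.range
      (fun j : Fin N => (Ideal.Quotient.mk (Ideal.span {P}) (F j.succ)))), D a = 0 := by
    intro a ha
    induction ha using Algebra.adjoin_induction with
    | mem x hx =>
      obtain ⟨i, rfl⟩ := hx
      have h1 : Ideal.Quotient.mk (Ideal.span {P}) (F i.succ) = mk (F i.succ) := by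
        rw [hmk]
        rfl
      change D (Ideal.Quotient.mk (Ideal.span {P}) (F i.succ)) = 0
      rw [h1, hD, hdF]
    | algebraMap r => exact D.map_algebraMap r
    | add x y _ _ hx hy => rw [map_add, hx, hy, add_zero]
    | mul x y _ _ hx hy => rw [D.leibniz, hx, hy, smul_zero, smul_zero, add_zero]
  have : CharZero (Po (N + 1) k ⧸ Ideal.span {P}) :=
    charZero_of_injective_algebraMap (algebraMap k _).injective
  apply hw
  funext j
  have h2 := Pool.Agent.H8.HZ.derivation_eq_zero D _ hDA (halg.isAlgebraic (mk (X j)))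
  rw [hD, hd, mkDerivation_X, hw'] at h2
  exact h2

end Pool.Agent.H37.HX
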